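import Mathlib

set_option autoImplicit false

/-!
Abstract mod 4 count of perfect matchings between `E ⊕ O` and `B`.
-/

namespace Pool.Agent.H323.GM

open Finset

/-- an odd size symmetric matrix over `ZMod 2` with zero diagonal is singular -/
theorem det_sym_odd {n : Type*} [Fintype n] [DecidableEq n] (C : Matrix n n (ZMod 2))
    (hs : ∀ i j, C i j = C j i) (hd : ∀ i, C i i = 0) (hn : Odd (Fintype.card n)) :
    C.det = 0 := by
  rw [Matrix.det_apply']
  have h0 : ∀ σ : Equiv.Perm n, (((Equiv.Perm.sign σ : ℤˣ) : ℤ) : ZMod 2) = 1 := by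
    intro σ
    rcases Int.units_eq_one_or (Equiv.Perm.sign σ) with h | h <;> rw [h] <;> decide
  simp only [h0, one_mul]
  apply Finset.sum_involution (fun σ _ => σ⁻¹)
  · intro σ _
    have h1 : ∏ i, C (σ⁻¹ i) i = ∏ i, C (σ i) i := by
      rw [← Equiv.prod_comp σ (fun i => C (σ⁻¹ i) i)]
      apply Finset.prod_congr rfl
      intro i _
      have h5 : σ⁻¹ (σ i) = i := σ.symm_apply_apply i
      rw [h5, hs]
    rw [h1]
    exact CharTwo.add_self_eq_zero _
  · intro σ _ hne heq
    apply hne
    have h2 : σ ^ 2 ^ 1 = 1 := by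
      rw [pow_one, sq]
      nth_rewrite 1 [← heq]
      simp
    have h3 : ¬ 2 ∣ Fintype.card n := by
      rw [← even_iff_two_dvd, Nat.not_even_iff_odd]; exact hn
    obtain ⟨a, ha⟩ := Equiv.Perm.exists_fixed_point_of_prime (p := 2) (n := 1) h3 h2
    apply Finset.prod_eq_zero (Finset.mem_univ a)
    rw [ha, hd]
  · intro σ _; exact inv_inv σ
  · intro σ _; exact Finset.mem_univ _

section

variable {E O B : Type} [Fintype E] [DecidableEq E] [Fintype O] [DecidableEq O]
  [Fintype B] [DecidableEq B]

/-- incidence matrix -/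
def RR (R : E → B → Prop) [∀ e b, Decidable (R e b)] : Matrix E B (ZMod 2) :=
  Matrix.of fun e b => if R e b then 1 else 0

/-- number of injective choices with prescribed image -/
def NT (R : E → B → Prop) [∀ e b, Decidable (R e b)] (T : Finset B) : ℕ :=
  (univ.filter fun φ : E → B => Function.Injective φ ∧ (∀ e, R e (φ e)) ∧ univ.image φ = T).card

omit [DecidableEq E] [Fintype B] [DecidableEq B] in
theorem prod_RR (R : E → B → Prop) [∀ e b, Decidable (R e b)] (f : E → E) (φ : E → B) :
    ∏ e, RR R (f e) (φ e) = if ∀ e, R (f e) (φ e) then 1 else 0 := by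
  split_ifs with h
  · apply Finset.prod_eq_one
    intro e _
    simp [RR, h e]
  · push Not at h
    obtain ⟨e, he⟩ := h
    apply Finset.prod_eq_zero (Finset.mem_univ e)
    simp [RR, he]

/-- the determinant of a column selection is the number of matchings mod 2 -/
theorem det_sel (R : E → B → Prop) [∀ e b, Decidable (R e b)] (φ : E → B)
    (hφ : Function.Injective φ) :
    (Matrix.of fun e' e => RR R e' (φ e)).det = (NT R (univ.image φ) : ZMod 2) := by
  rw [Matrix.det_apply']
  have h0 : ∀ σ : Equiv.Perm E, (((Equiv.Perm.sign σ : ℤˣ) : ℤ) : ZMod 2) = 1 := by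
    intro σ
    rcases Int.units_eq_one_or (Equiv.Perm.sign σ) with h | h <;> rw [h] <;> decide
  simp only [h0, one_mul, Matrix.of_apply]
  have h1 : ∀ σ : Equiv.Perm E, ∏ i, RR R (σ i) (φ i) = if ∀ i, R (σ i) (φ i) then 1 else 0 :=
    fun σ => prod_RR R σ φ
  simp only [h1]
  rw [Finset.sum_boole]
  congr 1
  unfold NT
  apply Finset.card_bij (i := fun (σ : Equiv.Perm E) _ => fun e => φ (σ.symm e))
  · intro σ hσ
    rw [Finset.mem_filter] at hσ ⊢
    refine ⟨Finset.mem_univ _, hφ.comp σ.symm.injective, ?_, ?_⟩
    · intro e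
      have := hσ.2 (σ.symm e)
      rwa [Equiv.apply_symm_apply] at this
    · ext b
      simp only [Finset.mem_image, Finset.mem_univ, true_and]
      constructor
      · rintro ⟨a, rfl⟩; exact ⟨_, rfl⟩
      · rintro ⟨a, rfl⟩; exact ⟨σ a, by simp⟩
  · intro σ _ τ _ h
    have h2 : σ.symm = τ.symm := by
      ext e
      exact hφ (congrFun h e)
    have h3 := congrArg Equiv.symm h2
    simpa using h3
  · intro ψ hψ
    rw [Finset.mem_filter] at hψ
    obtain ⟨-, hinj, hadj, him⟩ := hψ
    have hex : ∀ e, ∃ e', φ e' = ψ e := by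
      intro e
      have : ψ e ∈ univ.image φ := by
        rw [← him]; exact Finset.mem_image_of_mem _ (Finset.mem_univ _)
      simpa using this
    choose τ hτ using hex
    have hτi : Function.Injective τ := by
      intro a b hab
      apply hinj
      rw [← hτ a, ← hτ b, hab]
    have hτb : Function.Bijective τ := Finite.injective_iff_bijective.mp hτi
    refine ⟨(Equiv.ofBijective τ hτb).symm, ?_, ?_⟩
    · rw [Finset.mem_filter]
      refine ⟨Finset.mem_univ _, fun i => ?_⟩
      have h4 := hadj ((Equiv.ofBijective τ hτb).symm i)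
      rw [← hτ] at h4
      have h5 : τ ((Equiv.ofBijective τ hτb).symm i) = i :=
        (Equiv.ofBijective τ hτb).apply_symm_apply i
      rwa [h5] at h4
    · funext e
      simpa using hτ e

/-- Cauchy-Binet first step -/
theorem cb_aux {F : Type*} [CommRing F] (P : Matrix E B F) (Q : Matrix B E F) :
    (P * Q).det = ∑ a : E → B, (Matrix.of fun e' e => P e' (a e)).det * ∏ i, Q (a i) i := by
  rw [Matrix.det_apply']
  have h1 : ∀ σ : Equiv.Perm E, ∏ i, (P * Q) (σ i) i =
      ∑ a : E → B, (∏ i, P (σ i) (a i)) * ∏ i, Q (a i) i := by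
    intro σ
    simp only [Matrix.mul_apply]
    rw [Finset.prod_univ_sum, Fintype.piFinset_univ]
    apply Finset.sum_congr rfl
    intro a _
    rw [Finset.prod_mul_distrib]
  simp only [h1, Finset.mul_sum]
  rw [Finset.sum_comm]
  apply Finset.sum_congr rfl
  intro a _
  rw [Matrix.det_apply', Finset.sum_mul]
  apply Finset.sum_congr rfl
  intro σ _
  simp only [Matrix.of_apply]
  ring

/-- total number of injective choices is even -/
theorem sum_NT_even (R : E → B → Prop) [∀ e b, Decidable (R e b)] (hE : Odd (Fintype.card E))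
    (hdeg : ∀ e, ∑ b, RR R e b = 0) : ((∑ T : Finset B, NT R T : ℕ) : ZMod 2) = 0 := by
  have h1 : (RR R * (RR R).transpose).det = 0 := by
    apply det_sym_odd _ _ _ hE
    · intro i j
      simp only [Matrix.mul_apply, Matrix.transpose_apply]
      apply Finset.sum_congr rfl
      intro b _
      ring
    · intro i
      rw [← hdeg i]
      simp only [Matrix.mul_apply, Matrix.transpose_apply]
      apply Finset.sum_congr rfl
      intro b _
      unfold RR
      simp only [Matrix.of_apply]
      split_ifs <;> simp
  rw [cb_aux] at h1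
  have h2 : ∀ a : E → B, (Matrix.of fun e' e => RR R e' (a e)).det *
      ∏ i, (RR R).transpose (a i) i =
      if (Function.Injective a ∧ ∀ e, R e (a e)) then (NT R (univ.image a) : ZMod 2) else 0 := by
    intro a
    have h3 : ∏ i, (RR R).transpose (a i) i = if ∀ e, R e (a e) then 1 else 0 :=
      prod_RR R id a
    rw [h3]
    by_cases hi : Function.Injective a
    · rw [det_sel R a hi]
      by_cases hr : ∀ e, R e (a e)
      · simp [hi, hr]
      · simp [hr]
    · have h4 : (Matrix.of fun e' e => RR R e' (a e)).det = 0 := by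
        unfold Function.Injective at hi
        push Not at hi
        obtain ⟨i, j, hij, hne⟩ := hi
        apply Matrix.det_zero_of_column_eq hne
        intro k
        simp [hij]
      rw [h4]
      simp [hi]
  simp only [h2] at h1
  rw [← Finset.sum_filter] at h1
  rw [← Finset.sum_fiberwise (univ.filter fun a : E → B => Function.Injective a ∧ ∀ e, R e (a e))
    (fun a => univ.image a)] at h1
  push_cast
  rw [← h1]
  apply Finset.sum_congr rfl
  intro T _
  have h5 : ∑ a ∈ (univ.filter fun a : E → B => Function.Injective a ∧ ∀ e, R e (a e)).filter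
      (fun a => univ.image a = T), (NT R (univ.image a) : ZMod 2) = (NT R T : ZMod 2) * NT R T := by
    rw [Finset.sum_congr rfl (g := fun _ => (NT R T : ZMod 2))]
    · rw [Finset.sum_const, nsmul_eq_mul]
      congr 2
      unfold NT
      congr 1
      ext a
      simp only [Finset.mem_filter, Finset.mem_univ, true_and]
      tauto
    · intro a ha
      rw [Finset.mem_filter] at ha
      rw [ha.2]
  rw [h5]
  generalize (NT R T : ZMod 2) = x
  revert x
  decide

end

end Pool.Agent.H323.GM
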