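import Pool.Agent.H323.GM.Key

set_option autoImplicit false

/-!
Near-perfect matchings of odd grids.
-/

namespace Pool.Agent.H323.GM

open Finset

/-- The cells `(i, j)` with `1 ≤ i ≤ r` and `1 ≤ j ≤ c`. -/
abbrev Cell (r c : ℕ) : Type := ↥(Finset.Icc (1 : ℤ) r ×ˢ Finset.Icc (1 : ℤ) c)

/-- The `r × c` grid graph. -/
def grid (r c : ℕ) : SimpleGraph (Cell r c) where
  Adj u v := |u.1.1 - v.1.1| + |u.1.2 - v.1.2| = 1
  symm := ⟨fun u v h => by rw [abs_sub_comm v.1.1, abs_sub_comm v.1.2]; exact h⟩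
  loopless := ⟨fun u h => by simp at h⟩

/-- The number of near-perfect matchings of the grid graph missing exactly the vertex `h`. -/
noncomputable def nearPerfectCount (r c : ℕ) (h : Cell r c) : ℕ :=
  Nat.card {M : (grid r c).Subgraph // M.IsMatching ∧ M.verts = {h}ᶜ}

variable {r c : ℕ}

theorem cell_mem (u : Cell r c) : 1 ≤ u.1.1 ∧ u.1.1 ≤ r ∧ 1 ≤ u.1.2 ∧ u.1.2 ≤ c := by
  have := u.2
  rw [Finset.mem_product, Finset.mem_Icc, Finset.mem_Icc] at this
  tauto

theorem adj_iff (u v : Cell r c) : (grid r c).Adj u v ↔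
    (u.1.1 = v.1.1 ∧ (u.1.2 = v.1.2 + 1 ∨ v.1.2 = u.1.2 + 1)) ∨
    (u.1.2 = v.1.2 ∧ (u.1.1 = v.1.1 + 1 ∨ v.1.1 = u.1.1 + 1)) := by
  show |u.1.1 - v.1.1| + |u.1.2 - v.1.2| = 1 ↔ _
  rcases abs_cases (u.1.1 - v.1.1) with h | h <;> rcases abs_cases (u.1.2 - v.1.2) with h' | h' <;>
    rw [h.1, h'.1] <;> omega

/-- even-even cells different from `h` -/
abbrev EvC (h : Cell r c) : Type := {e : Cell r c // (e.1.1 % 2 = 0 ∧ e.1.2 % 2 = 0) ∧ e ≠ h}
/-- odd-odd cells -/
abbrev OdC (r c : ℕ) : Type := {o : Cell r c // o.1.1 % 2 = 1 ∧ o.1.2 % 2 = 1}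
/-- black cells -/
abbrev BlC (r c : ℕ) : Type := {b : Cell r c // (b.1.1 + b.1.2) % 2 = 1}

/-- build a cell -/
def mk (i j : ℤ) (h : 1 ≤ i ∧ i ≤ r ∧ 1 ≤ j ∧ j ≤ c) : Cell r c :=
  ⟨(i, j), by rw [Finset.mem_product, Finset.mem_Icc, Finset.mem_Icc]; tauto⟩

/-- first odd neighbour -/
def sB (hr : r % 2 = 1) (hc : c % 2 = 1) (b : BlC r c) : OdC r c :=
  if h : b.1.1.1 % 2 = 0 then
    ⟨mk (b.1.1.1 - 1) b.1.1.2 (by have := cell_mem b.1; omega), by
      have := b.2; constructor <;> simp only [mk] <;> omega⟩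
  else
    ⟨mk b.1.1.1 (b.1.1.2 - 1) (by have := cell_mem b.1; have := b.2; omega), by
      have := b.2; constructor <;> simp only [mk] <;> omega⟩

/-- second odd neighbour -/
def tB (hr : r % 2 = 1) (hc : c % 2 = 1) (b : BlC r c) : OdC r c :=
  if h : b.1.1.1 % 2 = 0 then
    ⟨mk (b.1.1.1 + 1) b.1.1.2 (by have := cell_mem b.1; omega), by
      have := b.2; constructor <;> simp only [mk] <;> omega⟩
  else
    ⟨mk b.1.1.1 (b.1.1.2 + 1) (by have := cell_mem b.1; have := b.2; omega), by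
      have := b.2; constructor <;> simp only [mk] <;> omega⟩

theorem cell_ext {u v : Cell r c} (h1 : u.1.1 = v.1.1) (h2 : u.1.2 = v.1.2) : u = v :=
  Subtype.ext (Prod.ext h1 h2)

theorem sB_even (hr : r % 2 = 1) (hc : c % 2 = 1) (b : BlC r c) (h : b.1.1.1 % 2 = 0) :
    (sB hr hc b).1.1 = (b.1.1.1 - 1, b.1.1.2) := by
  unfold sB; rw [dif_pos h]; rfl

theorem sB_odd (hr : r % 2 = 1) (hc : c % 2 = 1) (b : BlC r c) (h : ¬ b.1.1.1 % 2 = 0) :
    (sB hr hc b).1.1 = (b.1.1.1, b.1.1.2 - 1) := by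
  unfold sB; rw [dif_neg h]; rfl

theorem tB_even (hr : r % 2 = 1) (hc : c % 2 = 1) (b : BlC r c) (h : b.1.1.1 % 2 = 0) :
    (tB hr hc b).1.1 = (b.1.1.1 + 1, b.1.1.2) := by
  unfold tB; rw [dif_pos h]; rfl

theorem tB_odd (hr : r % 2 = 1) (hc : c % 2 = 1) (b : BlC r c) (h : ¬ b.1.1.1 % 2 = 0) :
    (tB hr hc b).1.1 = (b.1.1.1, b.1.1.2 + 1) := by
  unfold tB; rw [dif_neg h]; rfl

theorem s_ne_t (hr : r % 2 = 1) (hc : c % 2 = 1) (b : BlC r c) : sB hr hc b ≠ tB hr hc b := by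
  intro h
  have h1 := congrArg (fun o : OdC r c => o.1.1) h
  by_cases hb : b.1.1.1 % 2 = 0
  · simp only [sB_even hr hc b hb, tB_even hr hc b hb, Prod.mk.injEq] at h1
    omega
  · simp only [sB_odd hr hc b hb, tB_odd hr hc b hb, Prod.mk.injEq] at h1
    omega

theorem adj_od (hr : r % 2 = 1) (hc : c % 2 = 1) (o : OdC r c) (b : BlC r c) :
    (grid r c).Adj o.1 b.1 ↔ (sB hr hc b = o ∨ tB hr hc b = o) := by
  rw [adj_iff]
  have ho := o.2
  have hb := b.2
  by_cases h : b.1.1.1 % 2 = 0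
  · have e1 : sB hr hc b = o ↔ (b.1.1.1 - 1 = o.1.1.1 ∧ b.1.1.2 = o.1.1.2) := by
      rw [Subtype.ext_iff, Subtype.ext_iff, sB_even hr hc b h, Prod.ext_iff]
    have e2 : tB hr hc b = o ↔ (b.1.1.1 + 1 = o.1.1.1 ∧ b.1.1.2 = o.1.1.2) := by
      rw [Subtype.ext_iff, Subtype.ext_iff, tB_even hr hc b h, Prod.ext_iff]
    rw [e1, e2]
    omega
  · have e1 : sB hr hc b = o ↔ (b.1.1.1 = o.1.1.1 ∧ b.1.1.2 - 1 = o.1.1.2) := by
      rw [Subtype.ext_iff, Subtype.ext_iff, sB_odd hr hc b h, Prod.ext_iff]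
    have e2 : tB hr hc b = o ↔ (b.1.1.1 = o.1.1.1 ∧ b.1.1.2 + 1 = o.1.1.2) := by
      rw [Subtype.ext_iff, Subtype.ext_iff, tB_odd hr hc b h, Prod.ext_iff]
    rw [e1, e2]
    omega

/-- adjacency of even cells and black cells -/
def RE (h : Cell r c) (e : EvC h) (b : BlC r c) : Prop := (grid r c).Adj e.1 b.1

noncomputable instance (h : Cell r c) (e : EvC h) (b : BlC r c) : Decidable (RE h e b) := Classical.dec _

theorem sum4 (hr : r % 2 = 1) (hc : c % 2 = 1) (h : Cell r c) (e : EvC h)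
    (f : BlC r c → ZMod 2) : ∃ b1 b2 b3 b4 : BlC r c,
    b1.1.1 = (e.1.1.1 - 1, e.1.1.2) ∧ b2.1.1 = (e.1.1.1 + 1, e.1.1.2) ∧
    b3.1.1 = (e.1.1.1, e.1.1.2 - 1) ∧ b4.1.1 = (e.1.1.1, e.1.1.2 + 1) ∧
    ∑ b, RR (RE h) e b * f b = f b1 + (f b2 + (f b3 + f b4)) := by
  classical
  have hm := cell_mem e.1
  have he := e.2.1
  let b1 : BlC r c := ⟨mk (e.1.1.1 - 1) e.1.1.2 (by omega), by simp only [mk]; omega⟩
  let b2 : BlC r c := ⟨mk (e.1.1.1 + 1) e.1.1.2 (by omega), by simp only [mk]; omega⟩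
  let b3 : BlC r c := ⟨mk e.1.1.1 (e.1.1.2 - 1) (by omega), by simp only [mk]; omega⟩
  let b4 : BlC r c := ⟨mk e.1.1.1 (e.1.1.2 + 1) (by omega), by simp only [mk]; omega⟩
  refine ⟨b1, b2, b3, b4, rfl, rfl, rfl, rfl, ?_⟩
  have hne : ∀ {u v : BlC r c}, u.1.1 ≠ v.1.1 → u ≠ v := by
    intro u v huv heq; exact huv (by rw [heq])
  have h12 : b1 ≠ b2 := hne (by simp only [b1, b2, mk, ne_eq, Prod.mk.injEq]; omega)
  have h13 : b1 ≠ b3 := hne (by simp only [b1, b3, mk, ne_eq, Prod.mk.injEq]; omega)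
  have h14 : b1 ≠ b4 := hne (by simp only [b1, b4, mk, ne_eq, Prod.mk.injEq]; omega)
  have h23 : b2 ≠ b3 := hne (by simp only [b2, b3, mk, ne_eq, Prod.mk.injEq]; omega)
  have h24 : b2 ≠ b4 := hne (by simp only [b2, b4, mk, ne_eq, Prod.mk.injEq]; omega)
  have h34 : b3 ≠ b4 := hne (by simp only [b3, b4, mk, ne_eq, Prod.mk.injEq]; omega)
  have hR : ∀ b : BlC r c, RE h e b ↔ b ∈ ({b1, b2, b3, b4} : Finset (BlC r c)) := by
    intro b
    have hx : ∀ u : BlC r c, b = u ↔ (b.1.1.1 = u.1.1.1 ∧ b.1.1.2 = u.1.1.2) := by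
      intro u; rw [Subtype.ext_iff, Subtype.ext_iff, Prod.ext_iff]
    simp only [Finset.mem_insert, Finset.mem_singleton, hx]
    unfold RE
    rw [adj_iff]
    simp only [b1, b2, b3, b4, mk]
    omega
  have h1 : ∑ b, RR (RE h) e b * f b = ∑ b ∈ ({b1, b2, b3, b4} : Finset (BlC r c)), f b := by
    rw [← Finset.sum_subset (Finset.subset_univ ({b1, b2, b3, b4} : Finset (BlC r c)))]
    · apply Finset.sum_congr rfl
      intro b hb
      rw [← hR] at hb
      simp [RR, hb]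
    · intro b _ hb
      rw [← hR] at hb
      simp [RR, hb]
  rw [h1, Finset.sum_insert (by simp [h12, h13, h14]), Finset.sum_insert (by simp [h23, h24]),
    Finset.sum_insert (by simp [h34]), Finset.sum_singleton]

theorem deg_even (hr : r % 2 = 1) (hc : c % 2 = 1) (h : Cell r c) (e : EvC h) :
    ∑ b, RR (RE h) e b = 0 := by
  obtain ⟨b1, b2, b3, b4, -, -, -, -, h5⟩ := sum4 hr hc h e (fun _ => 1)
  simp only [mul_one] at h5
  rw [h5]
  decide

theorem orth (hr : r % 2 = 1) (hc : c % 2 = 1) (h : Cell r c) (y : OdC r c → ZMod 2) (e : EvC h) :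
    ∑ b, RR (RE h) e b * (y (sB hr hc b) + y (tB hr hc b)) = 0 := by
  obtain ⟨b1, b2, b3, b4, h1, h2, h3, h4, h5⟩ := sum4 hr hc h e
    (fun b => y (sB hr hc b) + y (tB hr hc b))
  rw [h5]
  have he := e.2.1
  have k1 : ¬ b1.1.1.1 % 2 = 0 := by rw [h1]; simp only; omega
  have k2 : ¬ b2.1.1.1 % 2 = 0 := by rw [h2]; simp only; omega
  have k3 : b3.1.1.1 % 2 = 0 := by rw [h3]; simp only; omega
  have k4 : b4.1.1.1 % 2 = 0 := by rw [h4]; simp only; omega
  have hx : ∀ u v : OdC r c, u.1.1 = v.1.1 → u = v := by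
    intro u v huv; exact Subtype.ext (Subtype.ext huv)
  have e1 : sB hr hc b1 = sB hr hc b3 := by
    apply hx
    rw [sB_odd hr hc b1 k1, sB_even hr hc b3 k3, h1, h3]
  have e2 : tB hr hc b1 = sB hr hc b4 := by
    apply hx
    rw [tB_odd hr hc b1 k1, sB_even hr hc b4 k4, h1, h4]
  have e3 : sB hr hc b2 = tB hr hc b3 := by
    apply hx
    rw [sB_odd hr hc b2 k2, tB_even hr hc b3 k3, h2, h3]
  have e4 : tB hr hc b2 = tB hr hc b4 := by
    apply hx
    rw [tB_odd hr hc b2 k2, tB_even hr hc b4 k4, h2, h4]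
  rw [e1, e2, e3, e4]
  have : ∀ p q u v : ZMod 2, (p + q) + ((u + v) + ((p + u) + (q + v))) = 0 := by decide
  exact this _ _ _ _

theorem conn (hr : r % 2 = 1) (hc : c % 2 = 1) (y : OdC r c → ZMod 2)
    (hy : ∀ b, y (sB hr hc b) = y (tB hr hc b)) : ∃ a, ∀ o, y o = a := by
  have hr1 : 1 ≤ r := by omega
  have hc1 : 1 ≤ c := by omega
  have hx : ∀ u v : OdC r c, u.1.1 = v.1.1 → u = v := by
    intro u v huv; exact Subtype.ext (Subtype.ext huv)
  have stepR : ∀ (k : ℕ) (u : OdC r c), u.1.1.1 = 2 * (k : ℤ) + 1 →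
      ∃ v : OdC r c, v.1.1.1 = 1 ∧ v.1.1.2 = u.1.1.2 ∧ y u = y v := by
    intro k
    induction k with
    | zero => intro u hu; exact ⟨u, by simpa using hu, rfl, rfl⟩
    | succ k ih =>
      intro u hu
      have hm := cell_mem u.1
      have ho := u.2
      push_cast at hu
      let b : BlC r c := ⟨mk (u.1.1.1 - 1) u.1.1.2 (by omega), by simp only [mk]; omega⟩
      have hb : b.1.1.1 % 2 = 0 := by simp only [b, mk]; omega
      have h1 := hy b
      have h2 : tB hr hc b = u := by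
        apply hx
        rw [tB_even hr hc b hb]
        simp only [b, mk]
        ext <;> simp
      obtain ⟨v, hv1, hv2, hv3⟩ := ih (sB hr hc b) (by
        rw [sB_even hr hc b hb]; simp only [b, mk]; omega)
      refine ⟨v, hv1, ?_, ?_⟩
      · rw [hv2, sB_even hr hc b hb]; rfl
      · rw [← hv3, h1, h2]
  have stepC : ∀ (k : ℕ) (u : OdC r c), u.1.1.2 = 2 * (k : ℤ) + 1 →
      ∃ v : OdC r c, v.1.1.2 = 1 ∧ v.1.1.1 = u.1.1.1 ∧ y u = y v := by
    intro k
    induction k with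
    | zero => intro u hu; exact ⟨u, by simpa using hu, rfl, rfl⟩
    | succ k ih =>
      intro u hu
      have hm := cell_mem u.1
      have ho := u.2
      push_cast at hu
      let b : BlC r c := ⟨mk u.1.1.1 (u.1.1.2 - 1) (by omega), by simp only [mk]; omega⟩
      have hb : ¬ b.1.1.1 % 2 = 0 := by simp only [b, mk]; omega
      have h1 := hy b
      have h2 : tB hr hc b = u := by
        apply hx
        rw [tB_odd hr hc b hb]
        simp only [b, mk]
        ext <;> simp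
      obtain ⟨v, hv1, hv2, hv3⟩ := ih (sB hr hc b) (by
        rw [sB_odd hr hc b hb]; simp only [b, mk]; omega)
      refine ⟨v, hv1, ?_, ?_⟩
      · rw [hv2, sB_odd hr hc b hb]; rfl
      · rw [← hv3, h1, h2]
  let o0 : OdC r c := ⟨mk 1 1 (by omega), by simp only [mk]; omega⟩
  refine ⟨y o0, fun o => ?_⟩
  have hm := cell_mem o.1
  have ho := o.2
  obtain ⟨v, hv1, hv2, hv3⟩ := stepR ((o.1.1.1 - 1) / 2).toNat o (by omega)
  obtain ⟨w, hw1, hw2, hw3⟩ := stepC ((v.1.1.2 - 1) / 2).toNat v (by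
    have := cell_mem v.1; have := v.2; omega)
  rw [hv3, hw3]
  congr 1
  apply hx
  ext
  · rw [hw2, hv1]; rfl
  · rw [hw1]; rfl

theorem card_ev (hr : r % 2 = 1) (hc : c % 2 = 1) (hrc : ¬ (r % 4 = 3 ∧ c % 4 = 3))
    (h : Cell r c) (hh : h.1.1 % 2 = 0 ∧ h.1.2 % 2 = 0) : Odd (Fintype.card (EvC h)) := by
  classical
  have h1 : Fintype.card (EvC h) =
      ((univ.filter fun e : Cell r c => e.1.1 % 2 = 0 ∧ e.1.2 % 2 = 0).erase h).card := by
    rw [Fintype.card_subtype]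
    congr 1
    ext e
    simp only [Finset.mem_filter, Finset.mem_univ, true_and, Finset.mem_erase]
    tauto
  have h2 : Even (univ.filter fun e : Cell r c => e.1.1 % 2 = 0 ∧ e.1.2 % 2 = 0).card := by
    rw [← ZMod.natCast_eq_zero_iff_even, Finset.cast_card]
    by_cases h4 : r % 4 = 1
    · apply Finset.sum_involution (fun e _ => mk ((r : ℤ) + 1 - e.1.1) e.1.2 (by
        have := cell_mem e; omega))
      · intro _ _; decide
      · intro e he _ heq
        rw [Finset.mem_filter] at he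
        have h5 := congrArg (fun u : Cell r c => u.1.1) heq
        simp only [mk] at h5
        omega
      · intro e he
        apply cell_ext <;> simp only [mk] <;> omega
      · intro e he
        rw [Finset.mem_filter] at he ⊢
        refine ⟨Finset.mem_univ _, ?_⟩
        simp only [mk]
        omega
    · have h6 : c % 4 = 1 := by omega
      apply Finset.sum_involution (fun e _ => mk e.1.1 ((c : ℤ) + 1 - e.1.2) (by
        have := cell_mem e; omega))
      · intro _ _; decide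
      · intro e he _ heq
        rw [Finset.mem_filter] at he
        have h5 := congrArg (fun u : Cell r c => u.1.2) heq
        simp only [mk] at h5
        omega
      · intro e he
        apply cell_ext <;> simp only [mk] <;> omega
      · intro e he
        rw [Finset.mem_filter] at he ⊢
        refine ⟨Finset.mem_univ _, ?_⟩
        simp only [mk]
        omega
  rw [h1, Finset.card_erase_of_mem (by rw [Finset.mem_filter]; exact ⟨Finset.mem_univ _, hh⟩)]
  have h3 : 0 < (univ.filter fun e : Cell r c => e.1.1 % 2 = 0 ∧ e.1.2 % 2 = 0).card :=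
    Finset.card_pos.mpr ⟨h, by rw [Finset.mem_filter]; exact ⟨Finset.mem_univ _, hh⟩⟩
  obtain ⟨k, hk⟩ := h2
  exact ⟨k - 1, by omega⟩

end Pool.Agent.H323.GM
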