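import Pool.Agent.H323.GM.Lin

set_option autoImplicit false

namespace Pool.Agent.H323.GM

open Finset

variable {E O B : Type} [Fintype E] [DecidableEq E] [Fintype O] [DecidableEq O]
  [Fintype B] [DecidableEq B]

theorem left_ker (R : E → B → Prop) [∀ e b, Decidable (R e b)] (s t : B → O)
    (H1 : ∀ (y : O → ZMod 2) (e : E), ∑ b, RR R e b * (y (s b) + y (t b)) = 0)
    (H2 : ∀ y : O → ZMod 2, (∀ b, y (s b) = y (t b)) → ∃ c, ∀ o, y o = c)
    (T : Finset B) (hT : Odd (NT R T)) (y : O → ZMod 2)
    (hy : ∀ b : {b // b ∉ T}, y (s b.1) = y (t b.1)) : ∃ c, ∀ o, y o = c := by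
  apply H2
  have h0 : NT R T ≠ 0 := by
    intro h; rw [h] at hT; exact absurd hT (by decide)
  unfold NT at h0
  rw [Finset.card_ne_zero] at h0
  obtain ⟨φ, hφ⟩ := h0
  rw [Finset.mem_filter] at hφ
  obtain ⟨-, hi, -, him⟩ := hφ
  set z : B → ZMod 2 := fun b => y (s b) + y (t b) with hz
  have hz0 : ∀ b, b ∉ T → z b = 0 := by
    intro b hb
    simp only [hz]
    rw [hy ⟨b, hb⟩]
    exact CharTwo.add_self_eq_zero _
  have hdet : (Matrix.of fun e' e => RR R e' (φ e)).det ≠ 0 := by
    rw [det_sel R φ hi, him]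
    intro h
    rw [ZMod.natCast_eq_zero_iff_even] at h
    exact (Nat.not_even_iff_odd.mpr hT) h
  have hmul : (Matrix.of fun e' e => RR R e' (φ e)).mulVec (z ∘ φ) = 0 := by
    funext e
    have h1 := H1 y e
    have h2 : ∑ b, RR R e b * z b = ∑ b ∈ univ.image φ, RR R e b * z b := by
      symm
      apply Finset.sum_subset (Finset.subset_univ _)
      intro b _ hb
      rw [him] at hb
      rw [hz0 b hb, mul_zero]
    rw [show ∑ b, RR R e b * (y (s b) + y (t b)) = ∑ b, RR R e b * z b from rfl, h2,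
      Finset.sum_image (fun a _ b _ h => hi h)] at h1
    exact h1
  have hzφ := Matrix.eq_zero_of_mulVec_eq_zero hdet hmul
  intro b
  have hb : z b = 0 := by
    by_cases h : b ∈ T
    · rw [← him, Finset.mem_image] at h
      obtain ⟨e, -, he⟩ := h
      rw [← he]
      exact congrFun hzφ e
    · exact hz0 b h
  have h2 : ∀ u v : ZMod 2, u + v = 0 → u = v := by decide
  exact h2 _ _ hb

theorem key [Nonempty O] (R : E → B → Prop) [∀ e b, Decidable (R e b)] (s t : B → O)
    (hst : ∀ b, s b ≠ t b)
    (H1 : ∀ (y : O → ZMod 2) (e : E), ∑ b, RR R e b * (y (s b) + y (t b)) = 0)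
    (H2 : ∀ y : O → ZMod 2, (∀ b, y (s b) = y (t b)) → ∃ c, ∀ o, y o = c)
    (hE : Odd (Fintype.card E)) (hdeg : ∀ e, ∑ b, RR R e b = 0) :
    4 ∣ (univ.filter fun p : (E → B) × (O → B) => (∀ e, R e (p.1 e)) ∧
      (∀ o, s (p.2 o) = o ∨ t (p.2 o) = o) ∧ Function.Bijective (Sum.elim p.1 p.2)).card := by
  by_cases hcard : Fintype.card E + Fintype.card O = Fintype.card B
  swap
  · have : (univ.filter fun p : (E → B) × (O → B) => (∀ e, R e (p.1 e)) ∧
      (∀ o, s (p.2 o) = o ∨ t (p.2 o) = o) ∧ Function.Bijective (Sum.elim p.1 p.2)) = ∅ := by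
      rw [Finset.filter_eq_empty_iff]
      rintro p - ⟨-, -, hb⟩
      apply hcard
      rw [← Fintype.card_sum]
      exact Fintype.card_of_bijective hb
    rw [this]
    simp
  have h1 : (univ.filter fun p : (E → B) × (O → B) => (∀ e, R e (p.1 e)) ∧
      (∀ o, s (p.2 o) = o ∨ t (p.2 o) = o) ∧ Function.Bijective (Sum.elim p.1 p.2)).card =
      ∑ T : Finset B, NT R T * CT s t T := by
    rw [Finset.card_eq_sum_card_fiberwise (f := fun p : (E → B) × (O → B) => univ.image p.1)
      (t := (univ : Finset (Finset B))) (fun _ _ => Finset.mem_coe.mpr (Finset.mem_univ _))]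
    apply Finset.sum_congr rfl
    intro T _
    unfold NT CT
    rw [← Finset.card_product]
    congr 1
    ext ⟨φ, ψ⟩
    simp only [Finset.mem_filter, Finset.mem_univ, true_and, Finset.mem_product]
    constructor
    · rintro ⟨⟨ha, hb, hbij⟩, him⟩
      have hφ : Function.Injective φ := by
        intro a b hab
        have := @hbij.1 (Sum.inl a) (Sum.inl b) hab
        exact Sum.inl_injective this
      have hψ : Function.Injective ψ := by
        intro a b hab
        have := @hbij.1 (Sum.inr a) (Sum.inr b) hab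
        exact Sum.inr_injective this
      refine ⟨⟨hφ, ha, him⟩, hψ, hb, ?_⟩
      ext b
      rw [← him]
      simp only [Finset.mem_image, Finset.mem_univ, true_and, Finset.mem_compl, not_exists]
      constructor
      · rintro ⟨o, rfl⟩ e he
        have := @hbij.1 (Sum.inl e) (Sum.inr o) he
        exact absurd this (by simp)
      · intro hne
        obtain ⟨x, hx⟩ := hbij.2 b
        rcases x with e | o
        · exact absurd hx (hne e)
        · exact ⟨o, hx⟩
    · rintro ⟨⟨hφ, ha, him⟩, hψ, hb, him2⟩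
      refine ⟨⟨ha, hb, ?_, ?_⟩, him⟩
      · have hdis : ∀ e o, φ e ≠ ψ o := by
          intro e o heq
          have h3 : ψ o ∈ Tᶜ := by rw [← him2]; exact Finset.mem_image_of_mem _ (Finset.mem_univ _)
          have h4 : φ e ∈ T := by rw [← him]; exact Finset.mem_image_of_mem _ (Finset.mem_univ _)
          rw [heq] at h4
          exact (Finset.mem_compl.mp h3) h4
        rintro (a | a) (b | b) hab
        · exact congrArg _ (hφ hab)
        · exact absurd hab (hdis _ _)
        · exact absurd hab.symm (hdis _ _)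
        · exact congrArg _ (hψ hab)
      · intro b
        by_cases h : b ∈ T
        · rw [← him, Finset.mem_image] at h
          obtain ⟨e, -, he⟩ := h
          exact ⟨Sum.inl e, he⟩
        · have h' : b ∈ Tᶜ := Finset.mem_compl.mpr h
          rw [← him2, Finset.mem_image] at h'
          obtain ⟨o, -, ho⟩ := h'
          exact ⟨Sum.inr o, ho⟩
  rw [h1]
  have h2 : ∀ T : Finset B, ((NT R T * CT s t T : ℕ) : ZMod 4) = ((2 * NT R T : ℕ) : ZMod 4) := by
    intro T
    rw [ZMod.natCast_eq_natCast_iff]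
    by_cases h0 : NT R T = 0
    · rw [h0]; simp [Nat.ModEq]
    have hTc : T.card = Fintype.card E := by
      have h0' := h0
      unfold NT at h0'
      rw [← ne_eq, Finset.card_ne_zero] at h0'
      obtain ⟨φ, hφ⟩ := h0'
      rw [Finset.mem_filter] at hφ
      obtain ⟨-, hi, -, him⟩ := hφ
      rw [← him, Finset.card_image_of_injective _ hi, Finset.card_univ]
    have hc : Fintype.card {b // b ∉ T} = Fintype.card O := by
      rw [Fintype.card_subtype_compl, Fintype.card_coe, hTc]
      omega
    rcases Nat.even_or_odd (NT R T) with he | ho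
    · obtain ⟨k, hk⟩ := he
      obtain ⟨l, hl⟩ := two_dvd_CT s t hst T hc
      rw [hk, hl]
      have e1 : (k + k) * (2 * l) = 4 * (k * l) := by ring
      have e2 : 2 * (k + k) = 4 * k := by ring
      rw [e1, e2]
      unfold Nat.ModEq
      rw [Nat.mul_mod_right, Nat.mul_mod_right]
    · rw [CT_two s t hst T hc (left_ker R s t H1 H2 T ho)]
      rw [mul_comm]
  have h3 := sum_NT_even R hE hdeg
  rw [ZMod.natCast_eq_zero_iff_even] at h3
  obtain ⟨k, hk⟩ := h3
  rw [← ZMod.natCast_eq_zero_iff]
  push_cast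
  have h4 : ∑ T : Finset B, (NT R T : ZMod 4) * (CT s t T : ZMod 4) =
      ∑ T : Finset B, ((2 * NT R T : ℕ) : ZMod 4) := by
    apply Finset.sum_congr rfl
    intro T _
    rw [← h2 T]
    push_cast
    ring
  rw [h4, ← Nat.cast_sum, ← Finset.mul_sum, hk]
  rw [ZMod.natCast_eq_zero_iff]
  exact ⟨k, by ring⟩

end Pool.Agent.H323.GM
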