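import Pool.Agent.H323.GM.Abs

set_option autoImplicit false

/-!
Orientation part of the mod 4 count.
-/

namespace Pool.Agent.H323.GM

open Finset

theorem fiber_card {V W : Type*} [AddCommGroup V] [Module (ZMod 2) V] [AddCommGroup W]
    [Module (ZMod 2) W] [Fintype V] [DecidableEq V] [DecidableEq W] (f : V →ₗ[ZMod 2] W) (y : W) :
    (univ.filter fun x : V => f x = y).card = 0 ∨
      (univ.filter fun x : V => f x = y).card = (univ.filter fun x : V => f x = 0).card := by
  by_cases h : ∃ x0, f x0 = y
  · right
    obtain ⟨x0, hx0⟩ := h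
    apply Finset.card_bij (i := fun x _ => x - x0)
    · intro x hx
      rw [Finset.mem_filter] at hx ⊢
      refine ⟨Finset.mem_univ _, ?_⟩
      rw [map_sub, hx.2, hx0, sub_self]
    · intro x _ x' _ h
      exact sub_left_injective h
    · intro z hz
      rw [Finset.mem_filter] at hz
      refine ⟨z + x0, ?_, by simp⟩
      rw [Finset.mem_filter]
      refine ⟨Finset.mem_univ _, ?_⟩
      rw [map_add, hz.2, hx0, zero_add]
  · left
    rw [Finset.card_eq_zero, Finset.filter_eq_empty_iff]
    intro x _ hx
    exact h ⟨x, hx⟩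

theorem ker_card {V W : Type*} [AddCommGroup V] [Module (ZMod 2) V] [AddCommGroup W]
    [Module (ZMod 2) W] [Fintype V] [DecidableEq W] (f : V →ₗ[ZMod 2] W) :
    (univ.filter fun x : V => f x = 0).card = 2 ^ Module.finrank (ZMod 2) (LinearMap.ker f) := by
  classical
  have h1 : Fintype.card (LinearMap.ker f) =
      Fintype.card (ZMod 2) ^ Module.finrank (ZMod 2) (LinearMap.ker f) :=
    Module.card_eq_pow_finrank
  rw [ZMod.card] at h1
  rw [← h1, Fintype.card_subtype]
  congr 1
  ext x
  simp [LinearMap.mem_ker]

section

variable {O B : Type} [Fintype O] [DecidableEq O] [Fintype B] [DecidableEq B]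

/-- number of ways to match `O` bijectively with the complement of `T` -/
def CT (s t : B → O) (T : Finset B) : ℕ :=
  (univ.filter fun ψ : O → B => Function.Injective ψ ∧
    (∀ o, s (ψ o) = o ∨ t (ψ o) = o) ∧ univ.image ψ = Tᶜ).card

/-- incidence matrix of the complement of `T` -/
def AA (s t : B → O) (T : Finset B) : Matrix O {b // b ∉ T} (ZMod 2) :=
  Matrix.of fun o b => (if s b.1 = o then 1 else 0) + (if t b.1 = o then 1 else 0)

/-- right hand side -/
def rhs (s : B → O) (T : Finset B) (o : O) : ZMod 2 :=
  1 + ∑ b : {b // b ∉ T}, (if s b.1 = o then (1 : ZMod 2) else 0)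

theorem cond_iff (s t : B → O) (T : Finset B) (x : {b // b ∉ T} → ZMod 2) :
    (AA s t T).mulVec x = rhs s T ↔
      ∀ o, ∑ b : {b // b ∉ T}, (if (if x b = 1 then t b.1 else s b.1) = o then (1 : ZMod 2) else 0)
        = 1 := by
  have key : ∀ o, ∑ b : {b // b ∉ T},
      (if (if x b = 1 then t b.1 else s b.1) = o then (1 : ZMod 2) else 0) =
      ∑ b : {b // b ∉ T}, (if s b.1 = o then (1 : ZMod 2) else 0) + (AA s t T).mulVec x o := by
    intro o
    unfold Matrix.mulVec dotProduct
    rw [← Finset.sum_add_distrib]
    apply Finset.sum_congr rfl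
    intro b _
    unfold AA
    simp only [Matrix.of_apply]
    generalize x b = z
    revert z
    intro z
    by_cases h1 : s b.1 = o <;> by_cases h2 : t b.1 = o <;> simp only [h1, h2] <;> revert z <;>
      simp only [if_true, if_false] <;> intro z <;>
      (by_cases hz : z = 1
       · simp [hz, h1, h2] <;> decide
       · have hz0 : z = 0 := by
           revert z; decide
         simp [hz0, h1, h2])
  constructor
  · intro h o
    rw [key, h]
    unfold rhs
    generalize ∑ b : {b // b ∉ T}, (if s b.1 = o then (1 : ZMod 2) else 0) = z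
    revert z; decide
  · intro h
    funext o
    have h1 := key o
    rw [h o] at h1
    have h2 : ∀ z w : ZMod 2, 1 = z + w → w = 1 + z := by decide
    exact h2 _ _ h1

theorem CT_eq (s t : B → O) (hst : ∀ b, s b ≠ t b) (T : Finset B)
    (hc : Fintype.card {b // b ∉ T} = Fintype.card O) :
    CT s t T = (univ.filter fun x : {b // b ∉ T} → ZMod 2 =>
      (AA s t T).mulVecLin x = rhs s T).card := by
  unfold CT
  have gdef : ∀ ψ : O → B, Function.Injective ψ → (∀ o, s (ψ o) = o ∨ t (ψ o) = o) →
      univ.image ψ = Tᶜ → ∀ b : {b // b ∉ T}, ψ (if ψ (t b.1) = b.1 then t b.1 else s b.1) = b.1 := by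
    intro ψ hi ha him b
    split_ifs with h
    · exact h
    · have h1 : b.1 ∈ univ.image ψ := by
        rw [him, Finset.mem_compl]; exact b.2
      rw [Finset.mem_image] at h1
      obtain ⟨o, -, ho⟩ := h1
      rcases ha o with h2 | h2
      · rw [ho] at h2; rw [h2, ho]
      · rw [ho] at h2; exfalso; apply h; rw [h2, ho]
  apply Finset.card_bij (i := fun (ψ : O → B) _ => fun b : {b // b ∉ T} =>
    if ψ (t b.1) = b.1 then (1 : ZMod 2) else 0)
  · intro ψ hψ
    rw [Finset.mem_filter] at hψ ⊢
    obtain ⟨-, hi, ha, him⟩ := hψ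
    refine ⟨Finset.mem_univ _, ?_⟩
    rw [Matrix.mulVecLin_apply, cond_iff]
    intro o
    have hT : ψ o ∉ T := by
      have : ψ o ∈ Tᶜ := by rw [← him]; exact Finset.mem_image_of_mem _ (Finset.mem_univ _)
      exact Finset.mem_compl.mp this
    rw [Finset.sum_eq_single (⟨ψ o, hT⟩ : {b // b ∉ T})]
    · rw [if_pos]
      have h1 := gdef ψ hi ha him ⟨ψ o, hT⟩
      have h2 := hi h1
      simp only at h2 ⊢
      split_ifs at h2 ⊢ with h3 h4 h4 <;> simp_all
    · intro b _ hb
      rw [if_neg]
      intro h
      apply hb
      have h1 := gdef ψ hi ha him b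
      have h2 : (if ψ (t b.1) = b.1 then t b.1 else s b.1) = o := by
        rw [← h]
        split_ifs with h3 h4 h4 <;> simp_all
      rw [h2] at h1
      exact Subtype.ext h1.symm
    · intro h
      exact absurd (Finset.mem_univ _) h
  · intro ψ hψ ψ' hψ' h
    rw [Finset.mem_filter] at hψ hψ'
    obtain ⟨-, hi, ha, him⟩ := hψ
    obtain ⟨-, hi', ha', him'⟩ := hψ'
    funext o
    have hT : ψ o ∉ T := by
      have : ψ o ∈ Tᶜ := by rw [← him]; exact Finset.mem_image_of_mem _ (Finset.mem_univ _)
      exact Finset.mem_compl.mp this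
    have h1 := gdef ψ hi ha him ⟨ψ o, hT⟩
    have h1' := gdef ψ' hi' ha' him' ⟨ψ o, hT⟩
    have h2 := hi h1
    have h3 := congrFun h ⟨ψ o, hT⟩
    simp only at h1 h1' h2 h3
    have h4 : (ψ (t (ψ o)) = ψ o) ↔ (ψ' (t (ψ o)) = ψ o) := by
      constructor
      · intro h5
        by_contra h6
        rw [if_pos h5, if_neg h6] at h3
        exact one_ne_zero h3
      · intro h5
        by_contra h6
        rw [if_neg h6, if_pos h5] at h3
        exact one_ne_zero h3.symm
    simp only [← h4] at h1'
    rw [h2] at h1'
    exact h1'.symm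
  · intro x hx
    rw [Finset.mem_filter, Matrix.mulVecLin_apply, cond_iff] at hx
    have hx2 := hx.2
    set g : {b // b ∉ T} → O := fun b => if x b = 1 then t b.1 else s b.1 with hg
    have hsurj : Function.Surjective g := by
      intro o
      by_contra hne
      push Not at hne
      have h1 := hx2 o
      rw [Finset.sum_eq_zero] at h1
      · exact one_ne_zero h1.symm
      · intro b _
        rw [if_neg (hne b)]
    have hbij : Function.Bijective g :=
      (Fintype.bijective_iff_surjective_and_card g).mpr ⟨hsurj, hc⟩
    set e := Equiv.ofBijective g hbij with he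
    have hge : ∀ o, g (e.symm o) = o := fun o => e.apply_symm_apply o
    refine ⟨fun o => (e.symm o).1, ?_, ?_⟩
    · rw [Finset.mem_filter]
      refine ⟨Finset.mem_univ _, ?_, ?_, ?_⟩
      · intro a b hab
        exact e.symm.injective (Subtype.ext hab)
      · intro o
        have h1 := hge o
        simp only [hg] at h1
        split_ifs at h1
        · right; exact h1
        · left; exact h1
      · ext b
        simp only [Finset.mem_image, Finset.mem_univ, true_and, Finset.mem_compl]
        constructor
        · rintro ⟨o, rfl⟩; exact (e.symm o).2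
        · intro hb
          refine ⟨e ⟨b, hb⟩, ?_⟩
          rw [e.symm_apply_apply]
    · funext b
      have h1 : ((e.symm (t b.1)).1 = b.1) ↔ x b = 1 := by
        constructor
        · intro h
          have h2 : e.symm (t b.1) = b := Subtype.ext h
          have h3 := hge (t b.1)
          rw [h2] at h3
          simp only [hg] at h3
          split_ifs at h3 with h4
          · exact h4
          · exact absurd h3 (hst _)
        · intro h
          have h2 : g b = t b.1 := by simp only [hg]; rw [if_pos h]
          have h3 : e.symm (t b.1) = b := by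
            rw [← h2]; exact e.symm_apply_apply b
          rw [h3]
      simp only
      by_cases h : x b = 1
      · rw [if_pos (h1.mpr h), h]
      · rw [if_neg (fun h' => h (h1.mp h'))]
        generalize x b = z at h
        revert z; decide

/-- sum functional -/
def sumF (O : Type) [Fintype O] : (O → ZMod 2) →ₗ[ZMod 2] ZMod 2 where
  toFun y := ∑ o, y o
  map_add' x y := by simp [Finset.sum_add_distrib]
  map_smul' c x := by simp [Finset.mul_sum]

theorem finrank_H [Nonempty O] :
    Module.finrank (ZMod 2) (LinearMap.ker (sumF O)) + 1 = Fintype.card O := by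
  have h1 := LinearMap.finrank_range_add_finrank_ker (sumF O)
  have h2 : LinearMap.range (sumF O) = ⊤ := by
    rw [LinearMap.range_eq_top]
    intro z
    obtain ⟨o⟩ := (inferInstance : Nonempty O)
    refine ⟨Pi.single o z, ?_⟩
    show ∑ o', (Pi.single o z : O → ZMod 2) o' = z
    rw [Finset.sum_pi_single']
    simp
  rw [h2, finrank_top, Module.finrank_self, Module.finrank_fintype_fun_eq_card] at h1
  omega

theorem range_le (s t : B → O) (T : Finset B) :
    LinearMap.range (AA s t T).mulVecLin ≤ LinearMap.ker (sumF O) := by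
  rintro _ ⟨x, rfl⟩
  rw [LinearMap.mem_ker, Matrix.mulVecLin_apply]
  show ∑ o, (AA s t T).mulVec x o = 0
  unfold Matrix.mulVec dotProduct AA
  rw [Finset.sum_comm]
  apply Finset.sum_eq_zero
  intro b _
  simp only [Matrix.of_apply]
  rw [← Finset.sum_mul, Finset.sum_add_distrib]
  simp only [Finset.sum_ite_eq, Finset.mem_univ, if_true]
  have : (1 : ZMod 2) + 1 = 0 := by decide
  rw [this, zero_mul]

theorem two_dvd_CT [Nonempty O] (s t : B → O) (hst : ∀ b, s b ≠ t b) (T : Finset B)
    (hc : Fintype.card {b // b ∉ T} = Fintype.card O) : 2 ∣ CT s t T := by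
  rw [CT_eq s t hst T hc]
  rcases fiber_card (AA s t T).mulVecLin (rhs s T) with h | h
  · rw [h]; exact dvd_zero _
  · rw [h, ker_card]
    apply dvd_pow_self
    have h1 := LinearMap.finrank_range_add_finrank_ker (AA s t T).mulVecLin
    have h2 := Submodule.finrank_mono (range_le s t T)
    have h3 := finrank_H (O := O)
    rw [Module.finrank_fintype_fun_eq_card] at h1
    omega

theorem CT_two [Nonempty O] (s t : B → O) (hst : ∀ b, s b ≠ t b) (T : Finset B)
    (hc : Fintype.card {b // b ∉ T} = Fintype.card O)
    (hker : ∀ y : O → ZMod 2, (∀ b : {b // b ∉ T}, y (s b.1) = y (t b.1)) → ∃ c, ∀ o, y o = c) :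
    CT s t T = 2 := by
  have h1 := LinearMap.finrank_range_add_finrank_ker (AA s t T).mulVecLin
  have h3 := finrank_H (O := O)
  rw [Module.finrank_fintype_fun_eq_card] at h1
  have h4 := LinearMap.finrank_range_add_finrank_ker (AA s t T).transpose.mulVecLin
  rw [Module.finrank_fintype_fun_eq_card] at h4
  have h5 : Module.finrank (ZMod 2) (LinearMap.range (AA s t T).mulVecLin) =
      Module.finrank (ZMod 2) (LinearMap.range (AA s t T).transpose.mulVecLin) := by
    have := Matrix.rank_transpose (AA s t T)
    unfold Matrix.rank at this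
    exact this.symm
  have h6 : Module.finrank (ZMod 2) (LinearMap.ker (AA s t T).transpose.mulVecLin) ≤ 1 := by
    have h7 : LinearMap.ker (AA s t T).transpose.mulVecLin ≤
        Submodule.span (ZMod 2) {(fun _ => 1 : O → ZMod 2)} := by
      intro y hy
      rw [LinearMap.mem_ker, Matrix.mulVecLin_apply] at hy
      obtain ⟨c, hcc⟩ := hker y (by
        intro b
        have h8 := congrFun hy b
        unfold Matrix.mulVec dotProduct AA at h8
        simp only [Matrix.transpose_apply, Matrix.of_apply, add_mul, ite_mul, one_mul, zero_mul,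
          Finset.sum_add_distrib, Finset.sum_ite_eq, Finset.mem_univ, if_true, Pi.zero_apply] at h8
        have h2 : ∀ u v : ZMod 2, u + v = 0 → u = v := by decide
        exact h2 _ _ h8)
      rw [Submodule.mem_span_singleton]
      refine ⟨c, ?_⟩
      funext o
      simp [hcc o]
    refine (Submodule.finrank_mono h7).trans ?_
    exact (finrank_span_le_card _).trans (by simp)
  have h9 := Submodule.finrank_mono (range_le s t T)
  have h10 : LinearMap.range (AA s t T).mulVecLin = LinearMap.ker (sumF O) := by
    apply Submodule.eq_of_le_of_finrank_eq (range_le s t T)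
    omega
  have h11 : rhs s T ∈ LinearMap.ker (sumF O) := by
    rw [LinearMap.mem_ker]
    show ∑ o, rhs s T o = 0
    unfold rhs
    rw [Finset.sum_add_distrib, Finset.sum_comm]
    simp only [Finset.sum_ite_eq, Finset.mem_univ, if_true, Finset.sum_const, Finset.card_univ,
      nsmul_eq_mul, mul_one]
    rw [hc]
    exact CharTwo.add_self_eq_zero _
  rw [← h10] at h11
  obtain ⟨x0, hx0⟩ := h11
  rw [CT_eq s t hst T hc]
  rcases fiber_card (AA s t T).mulVecLin (rhs s T) with h | h
  · exfalso
    rw [Finset.card_eq_zero, Finset.filter_eq_empty_iff] at h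
    exact h (Finset.mem_univ x0) hx0
  · rw [h, ker_card]
    have h12 : Module.finrank (ZMod 2) (LinearMap.ker (AA s t T).mulVecLin) = 1 := by omega
    rw [h12, pow_one]

end

end Pool.Agent.H323.GM
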