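import Pool.Agent.H323.GM.Grid

set_option autoImplicit false

namespace Pool.Agent.H323.GM

open Finset

variable {r c : ℕ}

/-- white cells other than `h` -/
def wi (h : Cell r c) : EvC h ⊕ OdC r c → Cell r c := Sum.elim (fun e => e.1) (fun o => o.1)

theorem wi_parity (h : Cell r c) (x : EvC h ⊕ OdC r c) : ((wi h x).1.1 + (wi h x).1.2) % 2 = 0 := by
  rcases x with e | o
  · have := e.2.1
    simp only [wi, Sum.elim_inl]; omega
  · have := o.2
    simp only [wi, Sum.elim_inr]; omega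

theorem wi_ne (h : Cell r c) (hh : h.1.1 % 2 = 0 ∧ h.1.2 % 2 = 0) (x : EvC h ⊕ OdC r c) :
    wi h x ≠ h := by
  rcases x with e | o
  · exact e.2.2
  · intro heq
    have := o.2
    simp only [wi, Sum.elim_inr] at heq
    rw [heq] at this
    omega

theorem wi_inj (h : Cell r c) : Function.Injective (wi h) := by
  rintro (a | a) (b | b) hab
  · simp only [wi, Sum.elim_inl] at hab; exact congrArg _ (Subtype.ext hab)
  · exfalso
    simp only [wi, Sum.elim_inl, Sum.elim_inr] at hab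
    have h1 := a.2.1; have h2 := b.2
    rw [hab] at h1; omega
  · exfalso
    simp only [wi, Sum.elim_inl, Sum.elim_inr] at hab
    have h1 := a.2; have h2 := b.2.1
    rw [hab] at h1; omega
  · simp only [wi, Sum.elim_inr] at hab; exact congrArg _ (Subtype.ext hab)

theorem wi_surj (h u : Cell r c) (hu : u ≠ h) (hp : (u.1.1 + u.1.2) % 2 = 0) :
    ∃ x, wi h x = u := by
  by_cases h0 : u.1.1 % 2 = 0
  · exact ⟨Sum.inl ⟨u, ⟨h0, by omega⟩, hu⟩, rfl⟩
  · exact ⟨Sum.inr ⟨u, by omega, by omega⟩, rfl⟩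

theorem adj_parity {u v : Cell r c} (h : (grid r c).Adj u v) :
    (u.1.1 + u.1.2) % 2 = 0 ↔ (v.1.1 + v.1.2) % 2 = 1 := by
  rw [adj_iff] at h
  omega

/-- the data encoding a matching -/
def Good (h : Cell r c) (F : EvC h ⊕ OdC r c → BlC r c) : Prop :=
  (∀ x, (grid r c).Adj (wi h x) (F x).1) ∧ Function.Bijective F

/-- the matching encoded by `F` -/
def toM (h : Cell r c) (hh : h.1.1 % 2 = 0 ∧ h.1.2 % 2 = 0) (F : EvC h ⊕ OdC r c → BlC r c)
    (hF : Good h F) : (grid r c).Subgraph where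
  verts := {h}ᶜ
  Adj u v := ∃ x, (u = wi h x ∧ v = (F x).1) ∨ (v = wi h x ∧ u = (F x).1)
  adj_sub := by
    rintro u v ⟨x, ⟨rfl, rfl⟩ | ⟨rfl, rfl⟩⟩
    · exact hF.1 x
    · exact (hF.1 x).symm
  edge_vert := by
    rintro u v ⟨x, ⟨rfl, rfl⟩ | ⟨rfl, rfl⟩⟩
    · exact wi_ne h hh x
    · intro heq
      have h1 := (F x).2
      have h2 : (F x).1 = h := heq
      rw [h2] at h1
      omega
  symm := by
    refine ⟨?_⟩
    rintro u v ⟨x, hx | hx⟩
    · exact ⟨x, Or.inr hx⟩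
    · exact ⟨x, Or.inl hx⟩

theorem toM_matching (h : Cell r c) (hh : h.1.1 % 2 = 0 ∧ h.1.2 % 2 = 0)
    (F : EvC h ⊕ OdC r c → BlC r c) (hF : Good h F) : (toM h hh F hF).IsMatching := by
  intro v hv
  have hv' : v ≠ h := hv
  by_cases hp : (v.1.1 + v.1.2) % 2 = 0
  · obtain ⟨x, rfl⟩ := wi_surj h v hv' hp
    refine ⟨(F x).1, ⟨x, Or.inl ⟨rfl, rfl⟩⟩, ?_⟩
    rintro w ⟨x', ⟨h1, h2⟩ | ⟨h1, h2⟩⟩
    · have := wi_inj h h1
      subst this
      exact h2
    · exfalso
      have h3 := (F x').2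
      rw [← h2] at h3
      omega
  · obtain ⟨x, hx⟩ := hF.2.2 ⟨v, by omega⟩
    have hx' : (F x).1 = v := by rw [hx]
    refine ⟨wi h x, ⟨x, Or.inr ⟨rfl, hx'.symm⟩⟩, ?_⟩
    rintro w ⟨x', ⟨h1, h2⟩ | ⟨h1, h2⟩⟩
    · exfalso
      have h3 := wi_parity h x'
      rw [← h1] at h3
      exact hp h3
    · have h3 : F x' = F x := Subtype.ext (by rw [← h2, hx'])
      have h4 := hF.2.1 h3
      rw [h1, h4]

theorem toM_inj (h : Cell r c) (hh : h.1.1 % 2 = 0 ∧ h.1.2 % 2 = 0)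
    (F G : EvC h ⊕ OdC r c → BlC r c) (hF : Good h F) (hG : Good h G)
    (heq : toM h hh F hF = toM h hh G hG) : F = G := by
  funext x
  have h1 : (toM h hh F hF).Adj (wi h x) (F x).1 := ⟨x, Or.inl ⟨rfl, rfl⟩⟩
  rw [heq] at h1
  obtain ⟨x', ⟨h2, h3⟩ | ⟨h2, h3⟩⟩ := h1
  · have := wi_inj h h2
    subst this
    exact Subtype.ext h3
  · exfalso
    have h4 := wi_parity h x
    have h5 := (G x').2
    rw [← h3] at h5
    omega

theorem toM_surj (h : Cell r c) (hh : h.1.1 % 2 = 0 ∧ h.1.2 % 2 = 0)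
    (M : (grid r c).Subgraph) (hM : M.IsMatching) (hv : M.verts = {h}ᶜ) :
    ∃ (F : EvC h ⊕ OdC r c → BlC r c) (hF : Good h F), toM h hh F hF = M := by
  have hex : ∀ x : EvC h ⊕ OdC r c, ∃ b : BlC r c, M.Adj (wi h x) b.1 := by
    intro x
    obtain ⟨w, hw, -⟩ := hM (v := wi h x) (by rw [hv]; exact wi_ne h hh x)
    have h1 := (adj_parity (M.adj_sub hw)).mp (wi_parity h x)
    exact ⟨⟨w, h1⟩, hw⟩
  choose F hFadj using hex
  have uniq : ∀ {u v w : Cell r c}, M.Adj u v → M.Adj u w → v = w := by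
    intro u v w h1 h2
    obtain ⟨z, -, hz⟩ := hM (v := u) (M.edge_vert h1)
    rw [hz v h1, hz w h2]
  have hF : Good h F := by
    refine ⟨fun x => M.adj_sub (hFadj x), ?_, ?_⟩
    · intro x y hxy
      apply wi_inj h
      have h1 := (hFadj x).symm
      have h2 := (hFadj y).symm
      rw [← hxy] at h2
      exact uniq h1 h2
    · intro b
      have hb : b.1 ≠ h := by
        intro heq
        have := b.2
        rw [heq] at this
        omega
      obtain ⟨w, hw, -⟩ := hM (v := b.1) (by rw [hv]; exact hb)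
      have hwh : w ≠ h := by
        have h3 : w ∈ M.verts := M.edge_vert hw.symm
        rw [hv] at h3
        exact h3
      have hwp : (w.1.1 + w.1.2) % 2 = 0 := (adj_parity (M.adj_sub hw.symm)).mpr b.2
      obtain ⟨x, hx⟩ := wi_surj h w hwh hwp
      refine ⟨x, Subtype.ext ?_⟩
      have h1 := hFadj x
      rw [hx] at h1
      exact uniq h1 hw.symm
  refine ⟨F, hF, ?_⟩
  apply SimpleGraph.Subgraph.ext
  · rw [hv]; rfl
  · funext u v
    apply propext
    constructor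
    · rintro ⟨x, ⟨rfl, rfl⟩ | ⟨rfl, rfl⟩⟩
      · exact hFadj x
      · exact (hFadj x).symm
    · intro huv
      have hu : u ≠ h := by
        have h3 : u ∈ M.verts := M.edge_vert huv
        rw [hv] at h3; exact h3
      have hvv : v ≠ h := by
        have h3 : v ∈ M.verts := M.edge_vert huv.symm
        rw [hv] at h3; exact h3
      by_cases hp : (u.1.1 + u.1.2) % 2 = 0
      · obtain ⟨x, rfl⟩ := wi_surj h u hu hp
        exact ⟨x, Or.inl ⟨rfl, uniq huv (hFadj x)⟩⟩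
      · have hp' : (v.1.1 + v.1.2) % 2 = 0 := by
          have := adj_parity (M.adj_sub huv.symm)
          omega
        obtain ⟨x, rfl⟩ := wi_surj h v hvv hp'
        exact ⟨x, Or.inr ⟨rfl, uniq huv.symm (hFadj x)⟩⟩

theorem count_eq (hr : r % 2 = 1) (hc : c % 2 = 1) (h : Cell r c)
    (hh : h.1.1 % 2 = 0 ∧ h.1.2 % 2 = 0) :
    nearPerfectCount r c h = (univ.filter fun p : (EvC h → BlC r c) × (OdC r c → BlC r c) =>
      (∀ e, RE h e (p.1 e)) ∧ (∀ o, sB hr hc (p.2 o) = o ∨ tB hr hc (p.2 o) = o) ∧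
      Function.Bijective (Sum.elim p.1 p.2)).card := by
  classical
  have hg : ∀ p : (EvC h → BlC r c) × (OdC r c → BlC r c),
      ((∀ e, RE h e (p.1 e)) ∧ (∀ o, sB hr hc (p.2 o) = o ∨ tB hr hc (p.2 o) = o) ∧
      Function.Bijective (Sum.elim p.1 p.2)) → Good h (Sum.elim p.1 p.2) := by
    rintro p ⟨h1, h2, h3⟩
    refine ⟨?_, h3⟩
    rintro (e | o)
    · exact h1 e
    · exact (adj_od hr hc o (p.2 o)).mpr (h2 o)
  unfold nearPerfectCount
  symm
  refine (Nat.subtype_card (p := fun p : (EvC h → BlC r c) × (OdC r c → BlC r c) =>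
      (∀ e, RE h e (p.1 e)) ∧ (∀ o, sB hr hc (p.2 o) = o ∨ tB hr hc (p.2 o) = o) ∧
      Function.Bijective (Sum.elim p.1 p.2)) _ (fun p => by
        simp only [Finset.mem_filter, Finset.mem_univ, true_and])).symm.trans ?_
  apply Nat.card_congr
  refine Equiv.ofBijective (fun p => (⟨toM h hh _ (hg p.1 p.2), toM_matching h hh _ _, rfl⟩ :
    {M : (grid r c).Subgraph // M.IsMatching ∧ M.verts = {h}ᶜ})) ⟨?_, ?_⟩
  · intro p q hpq
    have h1 := toM_inj h hh _ _ (hg p.1 p.2) (hg q.1 q.2) (congrArg Subtype.val hpq)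
    apply Subtype.ext
    apply Prod.ext
    · funext e; exact congrFun h1 (Sum.inl e)
    · funext o; exact congrFun h1 (Sum.inr o)
  · rintro ⟨M, hM, hv⟩
    obtain ⟨F, hF, hFM⟩ := toM_surj h hh M hM hv
    have hFe : Sum.elim (fun e => F (Sum.inl e)) (fun o => F (Sum.inr o)) = F := by
      funext x; rcases x with e | o <;> rfl
    refine ⟨⟨(fun e => F (Sum.inl e), fun o => F (Sum.inr o)), ?_, ?_, ?_⟩, ?_⟩
    · intro e; exact hF.1 (Sum.inl e)
    · intro o; exact (adj_od hr hc o (F (Sum.inr o))).mp (hF.1 (Sum.inr o))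
    · simp only [hFe]; exact hF.2
    · apply Subtype.ext
      simp only
      rw [← hFM]
      congr 1

theorem main (r c : ℕ) (hr : Odd r) (hc : Odd c) (hrc : ¬ (r % 4 = 3 ∧ c % 4 = 3))
    (h : Cell r c) (h1 : Even h.1.1) (h2 : Even h.1.2) : 4 ∣ nearPerfectCount r c h := by
  classical
  have hr' : r % 2 = 1 := Nat.odd_iff.mp hr
  have hc' : c % 2 = 1 := Nat.odd_iff.mp hc
  have hh : h.1.1 % 2 = 0 ∧ h.1.2 % 2 = 0 := ⟨Int.even_iff.mp h1, Int.even_iff.mp h2⟩
  rw [count_eq hr' hc' h hh]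
  have hne : Nonempty (OdC r c) := ⟨⟨mk 1 1 (by omega), by simp only [mk]; omega⟩⟩
  convert key (RE h) (sB hr' hc') (tB hr' hc') (s_ne_t hr' hc') (orth hr' hc' h) (conn hr' hc')
    (card_ev hr' hc' hrc h hh) (deg_even hr' hc' h)

end Pool.Agent.H323.GM
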